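import Mathlib
import Pool.Agent.W69.MH.Stm

/-!
Project MH (helper69): the finite Fourier argument on `(ZMod q)ˣ`.
-/

open Finset

namespace Pool.Agent.W701.MH

open Pool.Agent.W69.MH

variable {q : ℕ} [NeZero q]

/-- Fourier transform on the unit group -/
noncomputable def hat (f : (ZMod q)ˣ → ℂ) (χ : DirichletCharacter ℂ q) : ℂ := ∑ x : (ZMod q)ˣ, χ x * f x

/-- convolution on the unit group -/
noncomputable def cv (f g : (ZMod q)ˣ → ℂ) (x : (ZMod q)ˣ) : ℂ := ∑ y : (ZMod q)ˣ, f y * g (y⁻¹ * x)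

theorem hat_cv (f g : (ZMod q)ˣ → ℂ) (χ : DirichletCharacter ℂ q) :
    hat (cv f g) χ = hat f χ * hat g χ := by
  unfold hat cv
  rw [Finset.sum_mul_sum]
  simp_rw [Finset.mul_sum]
  rw [Finset.sum_comm]
  refine Finset.sum_congr rfl fun y _ => ?_
  rw [← Equiv.sum_comp (Equiv.mulLeft y)]
  refine Finset.sum_congr rfl fun x _ => ?_
  simp only [Equiv.coe_mulLeft, Units.val_mul, map_mul, inv_mul_cancel_left]
  ring

theorem orth (a b : (ZMod q)ˣ) :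
    ∑ χ : DirichletCharacter ℂ q, χ ((a⁻¹ : (ZMod q)ˣ) : ZMod q) * χ (b : ZMod q)
      = if a = b then (q.totient : ℂ) else 0 := by
  have h := DirichletCharacter.sum_char_inv_mul_char_eq (R := ℂ) (n := q) a.isUnit (b : ZMod q)
  rw [ZMod.inv_coe_unit] at h
  rw [h]
  simp [Units.ext_iff]

theorem inv_hat (f : (ZMod q)ˣ → ℂ) (b : (ZMod q)ˣ) :
    ∑ χ : DirichletCharacter ℂ q, χ ((b⁻¹ : (ZMod q)ˣ) : ZMod q) * hat f χ = (q.totient : ℂ) * f b := by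
  unfold hat
  simp_rw [Finset.mul_sum, ← mul_assoc]
  rw [Finset.sum_comm]
  simp_rw [← Finset.sum_mul]
  simp_rw [orth]
  simp

omit [NeZero q] in
theorem norm_unit (χ : DirichletCharacter ℂ q) (x : (ZMod q)ˣ) : ‖χ (x : ZMod q)‖ = 1 :=
  DirichletCharacter.unit_norm_eq_one χ x

omit [NeZero q] in
theorem conj_unit (χ : DirichletCharacter ℂ q) (x : (ZMod q)ˣ) :
    (starRingEnd ℂ) (χ (x : ZMod q)) = χ ((x⁻¹ : (ZMod q)ˣ) : ZMod q) := by
  have h1 : χ (x : ZMod q) * χ ((x⁻¹ : (ZMod q)ˣ) : ZMod q) = 1 := by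
    rw [← map_mul]; simp
  have h2 : χ (x : ZMod q) * (starRingEnd ℂ) (χ (x : ZMod q)) = 1 := by
    rw [Complex.mul_conj, Complex.normSq_eq_norm_sq, norm_unit]; simp
  have h0 : χ (x : ZMod q) ≠ 0 := by
    intro h; rw [h] at h1; simp at h1
  exact mul_left_cancel₀ h0 (h2.trans h1.symm)

theorem parseval (f : (ZMod q)ˣ → ℂ) :
    ∑ χ : DirichletCharacter ℂ q, ‖hat f χ‖ ^ 2 = (q.totient : ℝ) * ∑ x : (ZMod q)ˣ, ‖f x‖ ^ 2 := by
  have h : ∑ χ : DirichletCharacter ℂ q, (starRingEnd ℂ) (hat f χ) * hat f χ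
      = (q.totient : ℂ) * ∑ x : (ZMod q)ˣ, (starRingEnd ℂ) (f x) * f x := by
    have h1 : ∀ χ : DirichletCharacter ℂ q, (starRingEnd ℂ) (hat f χ) * hat f χ
        = ∑ x : (ZMod q)ˣ, (starRingEnd ℂ) (f x) * (χ ((x⁻¹ : (ZMod q)ˣ) : ZMod q) * hat f χ) := by
      intro χ
      have h0 : (starRingEnd ℂ) (hat f χ)
          = ∑ x : (ZMod q)ˣ, χ ((x⁻¹ : (ZMod q)ˣ) : ZMod q) * (starRingEnd ℂ) (f x) := by
        unfold hat
        rw [map_sum]
        refine Finset.sum_congr rfl fun x _ => ?_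
        rw [map_mul, conj_unit]
      rw [h0, Finset.sum_mul]
      refine Finset.sum_congr rfl fun x _ => ?_
      ring
    simp_rw [h1]
    rw [Finset.sum_comm]
    simp_rw [← Finset.mul_sum, inv_hat]
    rw [Finset.mul_sum]
    refine Finset.sum_congr rfl fun x _ => ?_
    ring
  have e1 : ∀ z : ℂ, (starRingEnd ℂ) z * z = ((‖z‖ ^ 2 : ℝ) : ℂ) := by
    intro z
    rw [mul_comm, Complex.mul_conj, Complex.normSq_eq_norm_sq]
  simp_rw [e1] at h
  exact_mod_cast h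

theorem card_units : (Fintype.card (ZMod q)ˣ : ℝ) = q.totient := by
  rw [ZMod.card_units_eq_totient]

theorem tot_pos : (0 : ℝ) < q.totient := by
  have : 0 < q.totient := Nat.totient_pos.mpr (Nat.pos_of_ne_zero (NeZero.ne q))
  exact_mod_cast this

theorem sum_char_zero (χ : DirichletCharacter ℂ q) (h : χ ≠ 1) : ∑ x : (ZMod q)ˣ, χ (x : ZMod q) = 0 := by
  obtain ⟨u, hu⟩ := MulChar.ne_one_iff.mp h
  have h1 : ∑ x : (ZMod q)ˣ, χ (x : ZMod q) = χ (u : ZMod q) * ∑ x : (ZMod q)ˣ, χ (x : ZMod q) := by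
    rw [Finset.mul_sum]
    rw [← Equiv.sum_comp (Equiv.mulLeft u)]
    refine Finset.sum_congr rfl fun x _ => ?_
    simp
  have h2 : (χ (u : ZMod q) - 1) * ∑ x : (ZMod q)ˣ, χ (x : ZMod q) = 0 := by
    rw [sub_mul, one_mul, ← h1, sub_self]
  rcases mul_eq_zero.mp h2 with h3 | h3
  · exact absurd (sub_eq_zero.mp h3) hu
  · exact h3

/-- the function minus its mean -/
noncomputable def dm (a : (ZMod q)ˣ → ℂ) (x : (ZMod q)ˣ) : ℂ := a x - (q.totient : ℂ)⁻¹ * ∑ y, a y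

theorem norm_dm (a : (ZMod q)ˣ → ℂ) (T : ℝ) (h : ∀ x y, ‖a x - a y‖ ≤ T / q.totient) (x : (ZMod q)ˣ) :
    ‖dm a x‖ ≤ T / q.totient := by
  have hp : (0 : ℝ) < q.totient := tot_pos
  have hc : (q.totient : ℂ) ≠ 0 := by
    have := hp.ne'
    exact_mod_cast this
  have e : dm a x = (q.totient : ℂ)⁻¹ * ∑ y, (a x - a y) := by
    unfold dm
    rw [Finset.sum_sub_distrib, mul_sub]
    congr 1
    rw [Finset.sum_const, Finset.card_univ, ZMod.card_units_eq_totient, nsmul_eq_mul]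
    field_simp
  rw [e, norm_mul, norm_inv, Complex.norm_natCast]
  have h2 : ‖∑ y, (a x - a y)‖ ≤ (q.totient : ℝ) * (T / q.totient) := by
    refine (norm_sum_le _ _).trans ?_
    refine (Finset.sum_le_card_nsmul _ _ (T / q.totient) (fun y _ => h x y)).trans ?_
    rw [Finset.card_univ, ZMod.card_units_eq_totient, nsmul_eq_mul]
  calc (q.totient : ℝ)⁻¹ * ‖∑ y, (a x - a y)‖ ≤ (q.totient : ℝ)⁻¹ * ((q.totient : ℝ) * (T / q.totient)) := by
        gcongr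
    _ = T / q.totient := by field_simp

theorem hat_dm (a : (ZMod q)ˣ → ℂ) (χ : DirichletCharacter ℂ q) (h : χ ≠ 1) : hat (dm a) χ = hat a χ := by
  unfold hat dm
  simp_rw [mul_sub]
  rw [Finset.sum_sub_distrib]
  rw [← Finset.sum_mul, sum_char_zero χ h]
  simp

theorem hat_dm_one (a : (ZMod q)ˣ → ℂ) : hat (dm a) 1 = 0 := by
  have hp : (0 : ℝ) < q.totient := tot_pos
  have hc : (q.totient : ℂ) ≠ 0 := by
    have := hp.ne'
    exact_mod_cast this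
  unfold hat dm
  have : ∀ x : (ZMod q)ˣ, (1 : DirichletCharacter ℂ q) (x : ZMod q) = 1 := fun x => MulChar.one_apply_coe x
  simp_rw [this, one_mul]
  rw [Finset.sum_sub_distrib, Finset.sum_const, Finset.card_univ, ZMod.card_units_eq_totient, nsmul_eq_mul]
  field_simp
  simp

theorem norm_hat_le (f : (ZMod q)ˣ → ℂ) (T : ℝ) (h : ∀ x, ‖f x‖ ≤ T / q.totient)
    (χ : DirichletCharacter ℂ q) : ‖hat f χ‖ ≤ T := by
  have hp : (0 : ℝ) < q.totient := tot_pos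
  unfold hat
  refine (norm_sum_le _ _).trans ?_
  have : ∀ x ∈ (Finset.univ : Finset (ZMod q)ˣ), ‖χ (x : ZMod q) * f x‖ ≤ T / q.totient := by
    intro x _
    rw [norm_mul, norm_unit, one_mul]; exact h x
  refine (Finset.sum_le_card_nsmul _ _ _ this).trans ?_
  rw [Finset.card_univ, ZMod.card_units_eq_totient, nsmul_eq_mul]
  rw [mul_div_cancel₀ _ hp.ne']

theorem norm_cv_le (f g : (ZMod q)ˣ → ℂ) (A P : ℝ) (hA : 0 ≤ A) (h : ∀ x, ‖f x‖ ≤ A) (hg : ∑ x, ‖g x‖ ≤ P)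
    (x : (ZMod q)ˣ) : ‖cv f g x‖ ≤ A * P := by
  unfold cv
  refine (norm_sum_le _ _).trans ?_
  have h1 : ∑ y : (ZMod q)ˣ, ‖f y * g (y⁻¹ * x)‖ ≤ ∑ y : (ZMod q)ˣ, A * ‖g (y⁻¹ * x)‖ := by
    refine Finset.sum_le_sum fun y _ => ?_
    rw [norm_mul]
    exact mul_le_mul_of_nonneg_right (h y) (norm_nonneg _)
  refine h1.trans ?_
  rw [← Finset.mul_sum]
  refine mul_le_mul_of_nonneg_left ?_ hA
  refine le_trans (le_of_eq ?_) hg
  have e : ∀ y : (ZMod q)ˣ, ‖g (y⁻¹ * x)‖ = (fun z => ‖g z‖) (((Equiv.inv _).trans (Equiv.mulRight x)) y) := by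
    intro y; simp
  simp_rw [e]
  exact Equiv.sum_comp ((Equiv.inv _).trans (Equiv.mulRight x)) (fun z => ‖g z‖)

theorem sum_norm_cv_le (f g : (ZMod q)ˣ → ℂ) : ∑ x, ‖cv f g x‖ ≤ (∑ x, ‖f x‖) * ∑ x, ‖g x‖ := by
  unfold cv
  calc ∑ x, ‖∑ y : (ZMod q)ˣ, f y * g (y⁻¹ * x)‖ ≤ ∑ x, ∑ y : (ZMod q)ˣ, ‖f y‖ * ‖g (y⁻¹ * x)‖ := by
        refine Finset.sum_le_sum fun x _ => ?_
        refine (norm_sum_le _ _).trans (Finset.sum_le_sum fun y _ => ?_)
        rw [norm_mul]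
    _ = ∑ y : (ZMod q)ˣ, ∑ x, ‖f y‖ * ‖g (y⁻¹ * x)‖ := Finset.sum_comm
    _ = (∑ x, ‖f x‖) * ∑ x, ‖g x‖ := by
        rw [Finset.sum_mul]
        refine Finset.sum_congr rfl fun y _ => ?_
        rw [← Finset.mul_sum]
        congr 1
        exact Equiv.sum_comp (Equiv.mulLeft y⁻¹) (fun z => ‖g z‖)

theorem abs_ : St_ABS := by
  intro q _ a1 a2 a3 d0 d2 m L0 T1 T2 T3 P R lam hT1 hT2 hT3 hlam h1 h2 h3 hm hd hM hL1 hL2 hlow b
  have hp : (0 : ℝ) < q.totient := tot_pos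
  change ∀ χ : DirichletCharacter ℂ q, hat m χ * L0 χ = 1 at hM
  change ∀ χ : DirichletCharacter ℂ q, hat a1 χ = hat d0 χ * L0 χ at hL1
  change ∀ χ : DirichletCharacter ℂ q, hat d2 χ * L0 χ = hat a3 χ - 3 * hat d0 χ * hat a2 χ +
      2 * (hat d0 χ) ^ 3 * L0 χ at hL2
  have hP : 0 ≤ P := le_trans (Finset.sum_nonneg fun _ _ => norm_nonneg _) hm
  have hR : 0 ≤ R := le_trans (Finset.sum_nonneg fun _ _ => norm_nonneg _) hd
  have hL0 : ∀ χ, L0 χ ≠ 0 := by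
    intro χ h
    have := hM χ
    rw [h] at this; simp at this
  -- the formula for the transform of `d2`
  have hD2 : ∀ χ, hat d2 χ = hat a3 χ * hat m χ - 3 * hat d0 χ * hat a2 χ * hat m χ + 2 * (hat d0 χ) ^ 3 := by
    intro χ
    have e : hat d2 χ = hat d2 χ * L0 χ * hat m χ := by
      rw [mul_assoc, mul_comm (L0 χ), hM, mul_one]
    rw [e, hL2]
    have := hM χ
    linear_combination (2 * hat d0 χ ^ 3) * this
  have hD0 : ∀ χ, hat d0 χ = hat a1 χ * hat m χ := by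
    intro χ
    have := hM χ
    rw [hL1]
    linear_combination (- hat d0 χ) * this
  -- decomposition
  have hs : ∑ x, d2 x = hat d2 1 := by
    unfold hat
    refine Finset.sum_congr rfl fun x _ => ?_
    rw [MulChar.one_apply_coe, one_mul]
  set F1 : (ZMod q)ˣ → ℂ := cv (dm a3) m with hF1
  set F2 : (ZMod q)ˣ → ℂ := cv (dm a2) (cv m d0) with hF2
  have key : (q.totient : ℂ) * d2 b - ∑ x, d2 x = (q.totient : ℂ) * F1 b - 3 * ((q.totient : ℂ) * F2 b)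
      + 2 * ∑ χ ∈ (univ.erase (1 : DirichletCharacter ℂ q)), χ ((b⁻¹ : (ZMod q)ˣ) : ZMod q) * (hat d0 χ) ^ 3 := by
    rw [← inv_hat d2 b, hs, ← inv_hat F1 b, ← inv_hat F2 b]
    rw [← Finset.add_sum_erase univ _ (Finset.mem_univ (1 : DirichletCharacter ℂ q)),
      ← Finset.add_sum_erase univ (fun χ : DirichletCharacter ℂ q => χ ((b⁻¹ : (ZMod q)ˣ) : ZMod q) * hat F1 χ)
        (Finset.mem_univ (1 : DirichletCharacter ℂ q)),
      ← Finset.add_sum_erase univ (fun χ : DirichletCharacter ℂ q => χ ((b⁻¹ : (ZMod q)ˣ) : ZMod q) * hat F2 χ)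
        (Finset.mem_univ (1 : DirichletCharacter ℂ q))]
    have z1 : hat F1 1 = 0 := by rw [hF1, hat_cv, hat_dm_one, zero_mul]
    have z2 : hat F2 1 = 0 := by rw [hF2, hat_cv, hat_dm_one, zero_mul]
    simp only [z1, z2, mul_zero, zero_add, MulChar.one_apply_coe, one_mul, add_sub_cancel_left]
    rw [Finset.mul_sum, Finset.mul_sum, ← Finset.sum_sub_distrib, ← Finset.sum_add_distrib]
    refine Finset.sum_congr rfl fun χ hχ => ?_
    have hne : χ ≠ 1 := Finset.ne_of_mem_erase hχ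
    rw [hD2, hF1, hF2, hat_cv, hat_cv, hat_cv, hat_dm _ _ hne, hat_dm _ _ hne]
    ring
  rw [key]
  have b1 : ‖(q.totient : ℂ) * F1 b‖ ≤ T3 * P := by
    rw [norm_mul, Complex.norm_natCast]
    have := norm_cv_le (dm a3) m (T3 / q.totient) P (by positivity) (norm_dm a3 T3 h3) hm b
    calc (q.totient : ℝ) * ‖F1 b‖ ≤ q.totient * (T3 / q.totient * P) := by gcongr
      _ = T3 * P := by field_simp
  have hmd : ∑ x, ‖cv m d0 x‖ ≤ P * R := by
    refine (sum_norm_cv_le m d0).trans ?_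
    exact mul_le_mul hm hd (Finset.sum_nonneg fun _ _ => norm_nonneg _) hP
  have b2 : ‖3 * ((q.totient : ℂ) * F2 b)‖ ≤ 3 * T2 * P * R := by
    rw [norm_mul, norm_mul, Complex.norm_natCast]
    have := norm_cv_le (dm a2) (cv m d0) (T2 / q.totient) (P * R) (by positivity) (norm_dm a2 T2 h2) hmd b
    have e3 : ‖(3 : ℂ)‖ = 3 := by simp
    rw [e3]
    calc 3 * ((q.totient : ℝ) * ‖F2 b‖) ≤ 3 * (q.totient * (T2 / q.totient * (P * R))) := by gcongr
      _ = 3 * T2 * P * R := by field_simp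
  have b3 : ‖∑ χ ∈ (univ.erase (1 : DirichletCharacter ℂ q)), χ ((b⁻¹ : (ZMod q)ˣ) : ZMod q) * (hat d0 χ) ^ 3‖
      ≤ T1 ^ 3 * P ^ 2 / lam := by
    refine (norm_sum_le _ _).trans ?_
    have s1 : ∀ χ ∈ (univ.erase (1 : DirichletCharacter ℂ q)),
        ‖χ ((b⁻¹ : (ZMod q)ˣ) : ZMod q) * (hat d0 χ) ^ 3‖ ≤ (T1 / lam) * ‖hat (cv (dm a1) m) χ‖ ^ 2 := by
      intro χ hχ
      have hne : χ ≠ 1 := Finset.ne_of_mem_erase hχ
      have u1 : ‖hat d0 χ‖ ≤ T1 / lam := by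
        have v1 : ‖hat a1 χ‖ ≤ T1 := by
          rw [← hat_dm a1 χ hne]
          exact norm_hat_le _ T1 (norm_dm a1 T1 h1) χ
        rw [hL1, norm_mul] at v1
        rw [le_div_iff₀ hlam]
        refine le_trans ?_ v1
        exact mul_le_mul_of_nonneg_left (hlow χ hne) (norm_nonneg _)
      have u2 : hat d0 χ = hat (cv (dm a1) m) χ := by
        rw [hat_cv, hat_dm _ _ hne]; exact hD0 χ
      rw [norm_mul, norm_unit, one_mul, norm_pow, ← u2]
      have : ‖hat d0 χ‖ ^ 3 = ‖hat d0 χ‖ * ‖hat d0 χ‖ ^ 2 := by ring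
      rw [this]
      gcongr
    refine (Finset.sum_le_sum s1).trans ?_
    rw [← Finset.mul_sum]
    have s2 : ∑ χ ∈ (univ.erase (1 : DirichletCharacter ℂ q)), ‖hat (cv (dm a1) m) χ‖ ^ 2 ≤ T1 ^ 2 * P ^ 2 := by
      refine (Finset.sum_le_sum_of_subset_of_nonneg (Finset.subset_univ _) (fun _ _ _ => by positivity)).trans ?_
      rw [parseval]
      have s3 : ∀ x ∈ (Finset.univ : Finset (ZMod q)ˣ), ‖cv (dm a1) m x‖ ^ 2 ≤ (T1 / q.totient * P) ^ 2 := by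
        intro x _
        have := norm_cv_le (dm a1) m (T1 / q.totient) P (by positivity) (norm_dm a1 T1 h1) hm x
        gcongr
      have s4 := Finset.sum_le_card_nsmul _ _ _ s3
      rw [Finset.card_univ, ZMod.card_units_eq_totient, nsmul_eq_mul] at s4
      calc (q.totient : ℝ) * ∑ x : (ZMod q)ˣ, ‖cv (dm a1) m x‖ ^ 2
          ≤ q.totient * (q.totient * (T1 / q.totient * P) ^ 2) := by gcongr
        _ = T1 ^ 2 * P ^ 2 := by field_simp
    calc T1 / lam * ∑ χ ∈ (univ.erase (1 : DirichletCharacter ℂ q)), ‖hat (cv (dm a1) m) χ‖ ^ 2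
        ≤ T1 / lam * (T1 ^ 2 * P ^ 2) := by gcongr
      _ = T1 ^ 3 * P ^ 2 / lam := by ring
  have b4 : ‖2 * ∑ χ ∈ (univ.erase (1 : DirichletCharacter ℂ q)), χ ((b⁻¹ : (ZMod q)ˣ) : ZMod q) * (hat d0 χ) ^ 3‖
      ≤ 2 * T1 ^ 3 * P ^ 2 / lam := by
    rw [norm_mul]
    have e2 : ‖(2 : ℂ)‖ = 2 := by simp
    rw [e2]
    calc 2 * ‖∑ χ ∈ (univ.erase (1 : DirichletCharacter ℂ q)), χ ((b⁻¹ : (ZMod q)ˣ) : ZMod q) * (hat d0 χ) ^ 3‖
        ≤ 2 * (T1 ^ 3 * P ^ 2 / lam) := by gcongr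
      _ = 2 * T1 ^ 3 * P ^ 2 / lam := by ring
  refine (norm_add_le _ _).trans ?_
  refine add_le_add ((norm_sub_le _ _).trans (add_le_add b1 b2)) b4

end Pool.Agent.W701.MH
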